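import Pool.Agent.GEN.All

/-!
# The normalized bracket polynomial detects the trivial knotoid among the products of knotoids of
Conway combinations of alternating tangles

The definitions used in the statement: `KSlice`, `IsKnotoid`, `kPoly`, `KIso`, `triv` are in
`Pool/Agent/ARK/KdDef.lean`, `knp` in `Pool/Agent/GEN/KpDef.lean`, words, tangles and the moves `Loc` in
`Pool/Agent/ARB/Defs.lean`, alternating tangles and their combinations in
`Pool/Agent/GEN/Statement.lean`.
-/

set_option autoImplicit false

namespace Pool.Agent.Results.MP_79b4ff_gt.AlternatingKnotoids

open Pool.Agent.ARB Pool.Agent.ARK Pool.GEN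

/-- Let `T_1, ..., T_r` be combinations by sums and rotations of crossings and leaves, every leaf
being any alternating tangle with four ends. Let `D` be an oriented diagram of the product of the
knotoids of height at most one which are obtained from `T_1, ..., T_r` by joining two opposite ends.
If the normalized bracket polynomial of `D` is a unit (in particular if it is `1`), then `D` is
isotopic to the diagram of the trivial knotoid without crossings. -/
theorem result (Ts : List Comb) (hl : ∀ T ∈ Ts, ∀ w, T.Leaf w → AltTangle w)
    (D : List KSlice) (_hD : IsKnotoid D) (hT : kforget D = knp (Ts.map Comb.word))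
    (hf : ∃ k : ℤ, kPoly D = LaurentPolynomial.T k ∨ kPoly D = -LaurentPolynomial.T k) :
    KIso 0 (kforget D) triv := by
  refine all_FINKP (Ts.map Comb.tree) (fun T' hT' w hw => ?_) D ?_ hf
  · obtain ⟨T, hTs, rfl⟩ := List.mem_map.1 hT'
    have h2 := hl T hTs w ((T.tree_leaf w).1 hw)
    exact ⟨h2.ok, h2.alt⟩
  · rw [hT, List.map_map]
    exact congrArg knp (List.map_congr_left fun T _ => (T.tree_word).symm)

end Pool.Agent.Results.MP_79b4ff_gt.AlternatingKnotoids
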