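import Pool.Agent.TRA.Last
import Pool.Agent.TRG.All

/-!
# MP_79b4ff_gt: highly twisted knotoid diagrams whose graph has small blocks

`D` is the Gauss diagram of a knotoid diagram.  Two crossings are in the same twist class if they are
interlaced with the same other crossings (for instance: the crossings of a twist region); `S` contains
one crossing of every twist class (of crossings which are interlaced with some crossing), and `k` is the
number of these classes, with the twist numbers `c_i`.

The vertices of the graph `Γ` are the components (one interval and closed curves) which are left when
all twist regions are cut, its edges are the crossings.  The crossings of a twist class are in series, so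
that the classes may be considered as the edges.  `p` is a labelling of the classes which does not divide
the cycles (`Splits`): classes which contain a cycle contain a cycle with only one label.  For instance
`p` gives the number of the block of `Γ`.
-/

set_option autoImplicit false

namespace Pool.Agent.Results.MP_79b4ff_gt.HighlyTwisted

open Pool.Agent.Helper16.Knotoid Pool.Agent.FHP Pool.Agent.EQT Pool.Agent.SPT Pool.Agent.TRA

/-- Let every block of the graph of a knotoid diagram with `k ≥ 1` twist classes have at most nine
classes, or cycle rank at most five, or no forest of more than three classes, or be series-parallel.  If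
the classes whose twist numbers are less than `(B + 1) 2 ^ 8 ^ (k + 2)` in absolute value contain no cycle
(for instance if there are no such classes), then the sum of the absolute values of the coefficients of
the polynomial `f` is greater than `B`.  If this holds for `B = 1`, then `f ≠ 1`. -/
theorem result {n : ℕ} (D : GaussDiagram n) (S : Finset (Fin n))
    (hS : Transversal D.Interlaced S) (hne : S.Nonempty)
    (p : Fin n → ℕ) (hp : Splits S (HasCycleO D) p)
    (hsm : ∀ q, SmallPart S (HasCycleO D) (row (D.Cut (cutState D.Interlaced D.sign))) p 9 5 3 q) :
    (∀ B : ℕ, ¬ HasCycleO D (S.filter fun i =>
        |twistNumber D.Interlaced D.sign i| < ((B + 1) * 2 ^ 8 ^ (S.card + 2) : ℕ)) →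
      (B : ℤ) < coeffSum D.normalizedBracket) ∧
    (¬ HasCycleO D (S.filter fun i =>
        |twistNumber D.Interlaced D.sign i| < (2 * 2 ^ 8 ^ (S.card + 2) : ℕ)) →
      D.normalizedBracket ≠ 1) :=
  knotoidNine TRG.rankReg5 D S hS hne p hp hsm

end Pool.Agent.Results.MP_79b4ff_gt.HighlyTwisted
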