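import Pool.Agent.SLB.ShapeFin

/-!
# MP_79b4ff_gt: the writhe of the parallel twist regions

`D` is the Gauss diagram of a knotoid diagram.  Two crossings are in the same twist class if they are
interlaced with the same other crossings (for instance: the crossings of a twist region); `S`
contains one crossing of every twist class (of crossings which are interlaced with some crossing).
`parallelWrithe` is the sum `w` of the signs of the crossings which are interlaced with another
crossing of their class (for a twist region of two or more crossings: the two strands run in the same
direction).  `errorTerm` is `E = a (3 ^ a - 3 ^ b)`, where `a` is the number of the classes with a twist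
number not divisible by `6`, and `b` the number of those with a twist number congruent to `3`
modulo `6`.  `SameShape` is a bijection of the classes which keeps which classes are interlaced, which
of them contain interlaced crossings, and the twist numbers modulo `6`.
-/

set_option autoImplicit false

namespace Pool.Agent.Results.MP_79b4ff_gt.ParallelTwists

open Pool.Agent.Helper16.Knotoid Pool.Agent.FHP Pool.Agent.EQT Pool.Agent.SLAB Pool.Agent.SLB

/-- The writhe `w` of the parallel twist classes is determined by the polynomial, the shape and the twist
numbers modulo `6`, and by the polynomial alone up to a number which depends only on the numbers of the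
twist classes of each residue modulo `6`: if `f - f' = ∑ u_i A ^ i` then
`6 |w - w'| ≤ ∑ |i u_i| + 3 E + 3 E'`; if `f = 1` then `2 |w| ≤ E`; and `6 |w - w'| ≤ ∑ |i u_i|` for two
diagrams of one shape with twist numbers congruent modulo `6`. -/
theorem result {n n' : ℕ} (D : GaussDiagram n) (S : Finset (Fin n))
    (hS : Transversal D.Interlaced S) (D' : GaussDiagram n') (S' : Finset (Fin n'))
    (hS' : Transversal D'.Interlaced S') :
    6 * |parallelWrithe D.Interlaced D.sign - parallelWrithe D'.Interlaced D'.sign| ≤
        moment (D.normalizedBracket - D'.normalizedBracket) +
          3 * errorTerm D.Interlaced D.sign S + 3 * errorTerm D'.Interlaced D'.sign S' ∧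
      (D.normalizedBracket = 1 →
        2 * |parallelWrithe D.Interlaced D.sign| ≤ errorTerm D.Interlaced D.sign S) ∧
      ∀ φ : Fin n → Fin n', SameShape D.Interlaced D.sign S D'.Interlaced D'.sign S' φ →
        6 * |parallelWrithe D.Interlaced D.sign - parallelWrithe D'.Interlaced D'.sign| ≤
          moment (D.normalizedBracket - D'.normalizedBracket) :=
  ⟨(slabKnotoid D S hS D' S' hS').1, (slabKnotoid D S hS D' S' hS').2.1,
    fun φ h => shapeKnotoid D S hS D' S' hS' φ h⟩

end Pool.Agent.Results.MP_79b4ff_gt.ParallelTwists
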